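import Mathlib
import Pool.Agent.CR.Irred
import Pool.Agent.CR.Coc12
import Pool.Agent.CR.Sp

/-! # MP_2377fe_an: an irreducible separable polynomial of degree six over a compact homogeneous
space with vanishing first cohomology -/

set_option autoImplicit false

namespace Pool.Agent.Results.MP_2377fe_an.IrreducibleSextic

/-- There are a connected Lie group `G` of dimension ten and a discrete subgroup `Γ` of `G` such
that `X = G / Γ` is compact, every continuous map from `X` to the circle is null-homotopic (that is,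
`H¹(X, ℤ) = 0`), and there is a monic polynomial `p` of degree six over `C(X)` which has six
distinct complex roots at every point of `X` (that is, `p` is separable) and which is irreducible
over `C(X)`; in particular `p` is not a product of six linear factors. -/
theorem result :
    ∃ (G : Type) (_ : Group G) (_ : TopologicalSpace G) (_ : T2Space G) (_ : ConnectedSpace G)
      (_ : ChartedSpace (EuclideanSpace ℝ (Fin 10)) G)
      (_ : LieGroup (modelWithCornersSelf ℝ (EuclideanSpace ℝ (Fin 10))) ((⊤ : ℕ∞) : WithTop ℕ∞) G)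
      (Γ : Subgroup G),
      DiscreteTopology Γ ∧ IsClosed (Γ : Set G) ∧ CompactSpace (G ⧸ Γ) ∧
      (∀ f : C(G ⧸ Γ, Circle), f.Nullhomotopic) ∧
      ∃ p : Polynomial C(G ⧸ Γ, ℂ), p.Monic ∧ p.natDegree = 6 ∧
        (∀ x : G ⧸ Γ, {z : ℂ | (p.eval (ContinuousMap.const (G ⧸ Γ) z)) x = 0}.ncard = 6) ∧
        Irreducible p ∧
        ¬ ∃ b : Fin 6 → C(G ⧸ Γ, ℂ), p = ∏ j, (Polynomial.X - Polynomial.C (b j)) := by
  obtain ⟨hlog, -⟩ := Pool.Agent.CR.final_aux Pool.Agent.CR.Data.coc
  obtain ⟨p, hp1, hp2, hp3, hp4⟩ := Pool.Agent.CR.exists_irreducible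
  refine ⟨Pool.Agent.CR.Sp, inferInstance, inferInstance, inferInstance, inferInstance,
    inferInstance, inferInstance, Pool.Agent.CR.cell.lat Pool.Agent.CR.Gam, inferInstance,
    inferInstance, inferInstanceAs (CompactSpace Pool.Agent.CR.XX),
    fun f => Pool.Agent.CR.nullhomotopic_of_log hlog f, p, hp1, hp2, hp3, hp4, ?_⟩
  rintro ⟨b, hb⟩
  rw [Fin.prod_univ_succ] at hb
  have hm1 : (Polynomial.X - Polynomial.C (b 0)).Monic := Polynomial.monic_X_sub_C _
  have hm2 : (∏ i : Fin 5, (Polynomial.X - Polynomial.C (b i.succ))).Monic :=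
    Polynomial.monic_prod_of_monic _ _ fun s _ => Polynomial.monic_X_sub_C _
  rcases hp4.isUnit_or_isUnit hb with h | h
  · have h1 := congrArg Polynomial.natDegree (hm1.isUnit_iff.1 h)
    rw [Polynomial.natDegree_X_sub_C, Polynomial.natDegree_one] at h1
    exact absurd h1 one_ne_zero
  · have h1 := congrArg Polynomial.natDegree (hm2.isUnit_iff.1 h)
    rw [Polynomial.natDegree_prod_of_monic _ _ fun s _ => Polynomial.monic_X_sub_C _] at h1
    simp at h1

end Pool.Agent.Results.MP_2377fe_an.IrreducibleSextic
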